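import Pool.Agent.Work.MP_db9399_sx_helper94.OwxA

/-! # MP_db9399 PHASE 2, block OWX (helper94): own colours of the outer vertices, from OWN -/

set_option autoImplicit false

namespace Pool.Agent.Work.MP_db9399_sx.helper94

open Finset Classical
open Pool.Agent.Work.MP_db9399_all (nb)
open Pool.Agent.Work.MP_db9399_dn (IsMat Tot)
open Pool.Agent.Work.MP_db9399_bg (den cl HPre mem_nb mem_cl bx den_bx card_univ_zmod
  card_univ_fin)
open Pool.Agent.Work.MP_db9399_lh (Lh ce su sp pt)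
open Pool.Agent.Work.MP_db9399_sl (InS Same Gout Gss Gin Gex Out Vert Spt Bip Nsc)
open Pool.Agent.Work.MP_db9399_sw (shs sms wt wl od ac avl SHH Gxh Grh Lgt mM avgL TQ LabD ColD
  Exs fiR)
open Pool.Agent.Work.MP_db9399_vt (fb outer tl OwnH Tst Stmt_OWN)
open Pool.Agent.Work.MP_db9399_sx

universe u

/-- density of a cell with a palette -/
theorem den_fq {l m r K K1 S : ℕ}
    (q : ZMod (2 * m + 1) × Fin (r + 1)) (F : Finset (Lh l m r K K1 S × Unit))
    (hF : ∀ t, t ∈ F ↔ (ce t.1, su t.1) = q) :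
    den F = 1 / (((2 * m + 1) * (r + 1) : ℕ) : ℝ) := by
  have h1 : F =
      (((bx {q.1} univ {q.2} univ univ univ) ×ˢ univ : Finset (Lh l m r K K1 S))) ×ˢ
        (univ : Finset Unit) := by
    ext t
    rw [hF, mem_product, mem_product, MP_db9399_bg.mem_bx]
    simp only [mem_univ, true_and, and_true, Finset.mem_singleton]
    constructor
    · intro h
      rw [← h]
      exact ⟨rfl, rfl⟩
    · rintro ⟨h1, h2⟩
      exact Prod.ext h1 h2
  have h3 : den (((bx {q.1} univ {q.2} univ univ univ) ×ˢ univ : Finset (Lh l m r K K1 S))) =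
      den (bx {q.1} univ {q.2} univ univ univ : Finset (MP_db9399_bg.Lbl l m r K K1)) := by
    unfold den
    rw [card_product, Fintype.card_prod, card_univ]
    push_cast
    have : (Fintype.card (ZMod 3 × ZMod (S + 1)) : ℝ) ≠ 0 := by
      have : 0 < Fintype.card (ZMod 3 × ZMod (S + 1)) := Fintype.card_pos
      positivity
    rw [mul_div_mul_right _ _ this]
  rw [h1]
  have h2 : den ((((bx {q.1} univ {q.2} univ univ univ) ×ˢ univ :
      Finset (Lh l m r K K1 S))) ×ˢ (univ : Finset Unit)) =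
      den (((bx {q.1} univ {q.2} univ univ univ) ×ˢ univ : Finset (Lh l m r K K1 S))) := by
    unfold den
    rw [card_product, Fintype.card_prod, card_univ]
    push_cast
    have : (Fintype.card Unit : ℝ) ≠ 0 := by
      have : 0 < Fintype.card Unit := Fintype.card_pos
      positivity
    rw [mul_div_mul_right _ _ this]
  rw [h2, h3, den_bx, card_univ_zmod, card_univ_zmod, card_univ_fin, card_univ_fin,
    Finset.card_singleton, Finset.card_singleton]
  have h1 : (2 * (m : ℝ) + 1) ≠ 0 := by positivity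
  have h2 : (2 * (l : ℝ) + 1) ≠ 0 := by positivity
  have h3 : ((r : ℝ) + 1) ≠ 0 := by positivity
  have h4 : ((K : ℝ) + 1) ≠ 0 := by positivity
  have h5 : ((K1 : ℝ) + 1) ≠ 0 := by positivity
  push_cast
  field_simp

/-- powers of the logarithm are small -/
theorem log_small {x : ℝ} (hx : 0 < x) (n : ℕ) :
    ∃ d0 : ℕ, ∀ d : ℕ, d0 ≤ d → Real.log d ^ n ≤ x * d := by
  have h1 : ∀ᶠ y : ℝ in Filter.atTop, ‖Real.log y ^ n‖ ≤ x * ‖id y‖ :=
    (Real.isLittleO_pow_log_id_atTop (n := n)).def hx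
  obtain ⟨y0, hy⟩ := Filter.eventually_atTop.mp h1
  refine ⟨⌈y0⌉₊, fun d hd => ?_⟩
  have h2 : y0 ≤ d := (Nat.le_ceil y0).trans (by exact_mod_cast hd)
  have h3 := hy d h2
  rw [Real.norm_eq_abs, Real.norm_eq_abs] at h3
  have h4 : |id (d : ℝ)| = d := abs_of_nonneg (Nat.cast_nonneg _)
  rw [h4] at h3
  exact (le_abs_self _).trans h3

section cfl
variable {V : Type u} [Fintype V] {k : ℕ}

/-- conflicts between outer vertices adjacent to guards of the same spot -/
def C2g (G : SimpleGraph V) (d : ℕ) (Ys : Finset (Finset V)) (Hs Gd : Finset V) :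
    SimpleGraph V where
  Adj v w := v ≠ w ∧ ∃ Y ∈ sms G d Hs Ys, ((nb G v ∩ (Y ∩ Gd)).Nonempty ∧
    (nb G w ∩ (Y ∩ Gd)).Nonempty) ∧ ¬ InS Ys v ∧ ¬ InS Ys w
  symm := ⟨fun _ _ ⟨h, Y, hY, ⟨h1, h2⟩, h3, h4⟩ => ⟨h.symm, Y, hY, ⟨h2, h1⟩, h4, h3⟩⟩
  loopless := ⟨fun _ h => h.1 rfl⟩

/-- excluded colours of the outer vertices adjacent to guards -/
noncomputable def Fxg (a : ℝ) (G : SimpleGraph V) (d : ℕ) (Ys : Finset (Finset V))
    (UH Hs Gd : Finset V) (c0 : V → Fin k) (v : V) : Finset (Fin k) :=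
  if InS Ys v then ∅ else (nb G v ∩ Gd).biUnion (fun x =>
    univ.filter (fun b => ∃ Y ∈ sms G d Hs Ys, x ∈ Y ∧
      a * Y.card < ((ubl G UH c0 Y b).card : ℝ)))

theorem C2g_deg {εg : ℝ} {G EH : SimpleGraph V} {d : ℕ} {Ys : Finset (Finset V)}
    {UH Hs Gd : Finset V} {c0 : V → Fin k} (hεg : εg ≤ 1 / 10)
    (hdis : ∀ Y ∈ Ys, ∀ Y' ∈ Ys, Y ≠ Y' → Disjoint Y Y')
    (hG : Gds εg G EH d Ys UH Hs Gd c0) (v : V) :
    ((nb (C2g G d Ys Hs Gd) v).card : ℝ) ≤ Real.log d ^ 9 * ((2 * Real.log d ^ 8) *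
      Real.log d ^ 5) := by
  have hlog : (0 : ℝ) ≤ Real.log d := Real.log_natCast_nonneg d
  by_cases hv : InS Ys v
  · have h0 : nb (C2g G d Ys Hs Gd) v = ∅ := by
      rw [eq_empty_iff_forall_notMem]
      intro w hw
      rw [mem_nb] at hw
      exact hw.2.choose_spec.2.2.1 hv
    rw [h0, card_empty, Nat.cast_zero]
    positivity
  · have h1 : nb (C2g G d Ys Hs Gd) v ⊆ (nb G v ∩ Gd).biUnion (fun x =>
        (Gd.filter (fun y => ∃ Y ∈ sms G d Hs Ys, x ∈ Y ∧ y ∈ Y)).biUnion (fun y =>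
          (nb G y).filter (fun w => ¬ Same Ys y w))) := by
      intro w hw
      rw [mem_nb] at hw
      obtain ⟨-, Y, hY, ⟨⟨x, hx⟩, ⟨y, hy⟩⟩, -, hwo⟩ := hw
      rw [mem_inter, mem_inter, mem_nb] at hx hy
      rw [mem_biUnion]
      refine ⟨x, mem_inter.mpr ⟨mem_nb.mpr hx.1, hx.2.2⟩, ?_⟩
      rw [mem_biUnion]
      refine ⟨y, mem_filter.mpr ⟨hy.2.2, Y, hY, hx.2.1, hy.2.1⟩, ?_⟩
      rw [mem_filter, mem_nb]
      refine ⟨hy.1.symm, ?_⟩
      rintro ⟨Y', hY', -, h3⟩
      exact hwo ⟨Y', hY', h3⟩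
    refine le_trans (Nat.cast_le.mpr (card_le_card h1)) (biU (hG.out v hv) (by positivity) ?_)
    intro x hx
    obtain ⟨-, hxG⟩ := mem_inter.mp hx
    refine biU ?_ (by positivity) ?_
    · obtain ⟨-, -, ⟨Y0, hY0, hx0⟩, -⟩ := hG.mem x hxG
      have h3 : Gd.filter (fun y => ∃ Y ∈ sms G d Hs Ys, x ∈ Y ∧ y ∈ Y) ⊆ Y0 ∩ Gd := by
        intro y hy
        obtain ⟨hyG, Y, hY, h4, h5⟩ := mem_filter.mp hy
        have h6 : Y = Y0 := by
          by_contra hne
          exact disjoint_left.mp (hdis Y (mem_filter.mp (mem_filter.mp hY).1).1 Y0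
            (mem_filter.mp (mem_filter.mp hY0).1).1 hne) h4 hx0
        rw [mem_inter, ← h6]
        exact ⟨h5, hyG⟩
      have h4 : ((Gd.filter (fun y => ∃ Y ∈ sms G d Hs Ys, x ∈ Y ∧ y ∈ Y)).card : ℝ) ≤
          (Y0 ∩ Gd).card := by exact_mod_cast card_le_card h3
      have h5 := (abs_le.mp (hG.t0 Y0 hY0)).2
      have h6 : (0 : ℝ) ≤ Real.log d ^ 8 := by positivity
      have h7 := mul_le_mul_of_nonneg_right hεg h6
      linarith
    · intro y hy
      exact (hG.mem y (mem_filter.mp hy).1).2.2.2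

theorem Fxg_card {εg a : ℝ} {G EH : SimpleGraph V} {d : ℕ} {Ys : Finset (Finset V)}
    {UH Hs Gd : Finset V} {c0 : V → Fin k} (ha : 0 < a)
    (hdis : ∀ Y ∈ Ys, ∀ Y' ∈ Ys, Y ≠ Y' → Disjoint Y Y')
    (htwo : ∀ v, (nb G v ∩ UH).card ≤ 2)
    (hG : Gds εg G EH d Ys UH Hs Gd c0) (v : V) :
    ((Fxg a G d Ys UH Hs Gd c0 v).card : ℝ) ≤ Real.log d ^ 9 * (2 / a) := by
  have hlog : (0 : ℝ) ≤ Real.log d := Real.log_natCast_nonneg d
  unfold Fxg
  by_cases hv : InS Ys v
  · rw [if_pos hv, card_empty, Nat.cast_zero]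
    positivity
  · rw [if_neg hv]
    refine biU (hG.out v hv) (by positivity) ?_
    intro x hx
    obtain ⟨-, hxG⟩ := mem_inter.mp hx
    obtain ⟨-, -, ⟨Y0, hY0, hx0⟩, -⟩ := hG.mem x hxG
    have h3 : univ.filter (fun b => ∃ Y ∈ sms G d Hs Ys, x ∈ Y ∧
        a * Y.card < ((ubl G UH c0 Y b).card : ℝ)) ⊆
        univ.filter (fun b => a * Y0.card < ((ubl G UH c0 Y0 b).card : ℝ)) := by
      intro b hb
      obtain ⟨-, Y, hY, h4, h5⟩ := mem_filter.mp hb
      have h6 : Y = Y0 := by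
        by_contra hne
        exact disjoint_left.mp (hdis Y (mem_filter.mp (mem_filter.mp hY).1).1 Y0
          (mem_filter.mp (mem_filter.mp hY0).1).1 hne) h4 hx0
      rw [mem_filter, ← h6]
      exact ⟨mem_univ _, h5⟩
    have h4 : ((univ.filter (fun b => ∃ Y ∈ sms G d Hs Ys, x ∈ Y ∧
        a * Y.card < ((ubl G UH c0 Y b).card : ℝ))).card : ℝ) ≤
        ((univ.filter (fun b => a * Y0.card < ((ubl G UH c0 Y0 b).card : ℝ))).card : ℝ) := by
      exact_mod_cast card_le_card h3
    exact h4.trans (bad_card c0 ha (card_pos.mpr ⟨x, hx0⟩) htwo)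

/-- the hypotheses of OWN -/
theorem ownH_of {θ θ' ζ η η1 η2 g : ℝ} {G EH : SimpleGraph V} {d : ℕ} {Ys : Finset (Finset V)}
    {UH Hs : Finset V} {c0 tu : V → Fin k} (hθ : θ ≤ 1 / 100) (hζ : 0 < ζ) (hη : 0 < η)
    (hη2 : η2 ≤ η / 4) (hη2' : η2 ≤ ζ / 8) (hη2'' : η2 ≤ 1 / 8) (h12 : η1 ≤ η2)
    (hS : Spt θ ζ η1 g G d Ys) (hGr : Grp θ θ' η1 G EH d Ys UH Hs c0 tu)
    (hHs : ∀ Y ∈ Ys, ((Y ∩ Hs).card : ℝ) ≤ η2 * Y.card) :
    OwnH (ζ / 2) η g G d Ys (univ \ Hs) UH := by
  have hd0 : (0 : ℝ) ≤ d := Nat.cast_nonneg _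
  have hYL : ∀ Y : Finset V, Y ∩ (univ \ Hs) = Y \ Hs := by
    intro Y
    ext x
    simp only [mem_inter, mem_sdiff, mem_univ, true_and]
  have hc : ∀ Y : Finset V, ((Y \ Hs).card : ℝ) + (Y ∩ Hs).card = Y.card := by
    intro Y
    exact_mod_cast card_sdiff_add_card_inter Y Hs
  have hu : ∀ Y ∈ Ys, (Y.card : ℝ) ≤ 101 / 100 * d := by
    intro Y hY
    refine (hGr.upp Y hY).trans (mul_le_mul_of_nonneg_right (by linarith) hd0)
  refine
    { deg := hGr.deg
      dis := hGr.dis
      low := ?_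
      lgt := ?_
      hub := ?_
      sum := ?_
      nsc := hS.nsc
      two := hGr.pre.two }
  · intro Y hY
    rw [hYL]
    have h1 := hGr.low Y hY
    have h2 : (10 : ℝ) ^ 4 * (Y ∩ Hs).card ≤ Y.card := by exact_mod_cast hGr.hsc Y hY
    have h3 := hc Y
    have h4 : (99 / 100 : ℝ) * d ≤ (1 - θ) * d := mul_le_mul_of_nonneg_right (by linarith) hd0
    linarith
  · intro Y hY
    rw [hYL]
    have h1 := hHs Y hY
    have h3 := hc Y
    have h4 : (0 : ℝ) ≤ Y.card := Nat.cast_nonneg _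
    have h5 : (1 - η2) * Y.card ≤ ((Y \ Hs).card : ℝ) := by linarith
    have h6 : (1 : ℝ) ≤ (1 + η) * (1 - η2) ∨ 1 < η := by
      by_cases h : η ≤ 1
      · left
        nlinarith
      · right
        linarith
    rcases h6 with h6 | h6
    · have h7 := mul_le_mul_of_nonneg_left h5 (by linarith : (0 : ℝ) ≤ 1 + η)
      have h8 := mul_le_mul_of_nonneg_right h6 h4
      nlinarith
    · have h7 : (7 / 8 : ℝ) * Y.card ≤ ((Y \ Hs).card : ℝ) := by nlinarith
      nlinarith
  · intro Y hY v hv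
    rw [hYL]
    have h1 := hS.hub Y hY v hv
    have h2 := hHs Y hY
    have h3 : ((Y \ nb G v).card : ℝ) ≤ (((Y \ Hs) \ nb G v).card : ℝ) + (Y ∩ Hs).card := by
      have h4 : Y \ nb G v ⊆ ((Y \ Hs) \ nb G v) ∪ (Y ∩ Hs) := by
        intro x hx
        rw [mem_sdiff] at hx
        rw [mem_union, mem_sdiff, mem_sdiff, mem_inter]
        by_cases h : x ∈ Hs
        · exact Or.inr ⟨hx.1, h⟩
        · exact Or.inl ⟨⟨hx.1, h⟩, hx.2⟩
      have h5 := (card_le_card h4).trans (card_union_le _ _)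
      exact_mod_cast h5
    have h4 := hu Y hY
    have h5 : (0 : ℝ) ≤ Y.card := Nat.cast_nonneg _
    have h6 : η2 * (Y.card : ℝ) ≤ ζ / 8 * Y.card := mul_le_mul_of_nonneg_right hη2' h5
    have h7 : ζ / 8 * (Y.card : ℝ) ≤ ζ / 8 * (101 / 100 * d) :=
      mul_le_mul_of_nonneg_left h4 (by positivity)
    nlinarith [mul_nonneg hζ.le hd0]
  · intro Y hY
    unfold tl
    rw [hYL]
    have h1 := hS.sum Y hY
    have h2 : ∑ v ∈ Y \ Hs, ((d : ℝ) - (nb G v ∩ Y).card) ≤
        ∑ v ∈ Y, ((d : ℝ) - (nb G v ∩ Y).card) := by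
      refine sum_le_sum_of_subset_of_nonneg sdiff_subset ?_
      intro v _ _
      have h3 : ((nb G v ∩ Y).card : ℝ) ≤ d := by
        exact_mod_cast (card_le_card inter_subset_left).trans (hGr.deg v)
      linarith
    have h3 := hc Y
    have h4 : (0 : ℝ) ≤ Y.card := Nat.cast_nonneg _
    have h5 : (7 / 8 : ℝ) * Y.card ≤ ((Y \ Hs).card : ℝ) := by
      have := hHs Y hY
      nlinarith
    have h6 : η1 * d * Y.card ≤ η / 4 * d * Y.card :=
      mul_le_mul_of_nonneg_right (mul_le_mul_of_nonneg_right (by linarith) hd0) h4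
    have h7 : η / 4 * d * (Y.card : ℝ) ≤ η / 4 * d * (8 / 7 * (Y \ Hs).card) :=
      mul_le_mul_of_nonneg_left (by linarith) (by positivity)
    have h8 : (0 : ℝ) ≤ η * d * (Y \ Hs).card := by positivity
    nlinarith

end cfl

/-- OWX -/
theorem stmt_OWX (hOWN : Stmt_OWN.{u}) : Stmt_OWX.{u} := by
  obtain ⟨κ1, hκ1, hκ11, H⟩ := hOWN
  refine ⟨κ1, hκ1, hκ11, fun ζ hζ hζ1 => ?_⟩
  obtain ⟨η, hη, H⟩ := H (ζ / 2) (by linarith) (by linarith)
  obtain ⟨η2, hη2⟩ : ∃ η2 : ℝ, η2 = min (η / 4) (ζ / 8) := ⟨_, rfl⟩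
  have hη20 : 0 < η2 := by
    rw [hη2]
    exact lt_min (by positivity) (by positivity)
  have hη21 : η2 ≤ η / 4 := by rw [hη2]; exact min_le_left _ _
  have hη22 : η2 ≤ ζ / 8 := by rw [hη2]; exact min_le_right _ _
  refine ⟨η2, hη20, fun g hg hg1 => ?_⟩
  obtain ⟨κ, hκ, H⟩ := H g hg hg1
  refine ⟨min κ 1, lt_min hκ one_pos, min_le_right _ _, ?_⟩
  intro l m r K K1 S
  have hN : 0 < (2 * m + 1) * (r + 1) := by positivity
  obtain ⟨δ, d0, hδ, H⟩ := H ((2 * m + 1) * (r + 1)) hN
  obtain ⟨a, ha⟩ : ∃ a : ℝ, a = κ1 * ζ / 100 := ⟨_, rfl⟩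
  have ha0 : 0 < a := by rw [ha]; positivity
  obtain ⟨d1, hd1⟩ := log_small (x := δ / 2) (by positivity) 22
  obtain ⟨d2, hd2⟩ := log_small (x := δ * a / 2) (by positivity) 9
  obtain ⟨s, hs⟩ : ∃ s : ℝ, s = min (2 * δ) (δ ^ 2) := ⟨_, rfl⟩
  have hs0 : 0 < s := by
    rw [hs]
    exact lt_min (by positivity) (by positivity)
  have hs1 : s ≤ 2 * δ := by rw [hs]; exact min_le_left _ _
  have hs2 : s ≤ δ ^ 2 := by rw [hs]; exact min_le_right _ _
  obtain ⟨d3, hd3⟩ : ∃ d3 : ℕ, d3 = 3 + (d0 + (d1 + (d2 +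
    Fintype.card (Finset (Lh l m r K K1 S × Unit))))) := ⟨_, rfl⟩
  refine ⟨δ, s, d3, hδ, hs0, ?_⟩
  intro V _ k θ θ' η1 εg G EH d Ys UH Hs Gd c0 tu hd hθ hεg hη1 hSpt hGr hHs hGd
  have n0 : d0 ≤ d := by omega
  have n1 : d1 ≤ d := by omega
  have n2 : d2 ≤ d := by omega
  have n3 : 3 ≤ d := by omega
  have n4 : Fintype.card (Finset (Lh l m r K K1 S × Unit)) ≤ d := by omega
  have hdR : (3 : ℝ) ≤ d := by exact_mod_cast n3
  have hlog : 0 < Real.log d := Real.log_pos (by linarith)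
  have hOH := ownH_of hθ hζ hη hη21 hη22 (by linarith) hη1 hSpt hGr hHs
  obtain ⟨J, hJf, Sj, hSc, hSn, H⟩ := H G d Ys (univ \ Hs) UH n0 hOH
  refine ⟨J × Finset (Lh l m r K K1 S × Unit), inferInstance,
    fun j lab => ((Sj j.1 ∩ cl lab j.2).card : ℝ), fun j v => if v ∈ Sj j.1 then 1 else 0,
    fun j => δ * (Sj j.1).card + Real.log d ^ 2, ?_, ?_⟩
  · refine
      { c0 := ?_
        lip := ?_
        num := ?_
        t0 := ?_
        big := ?_ }
    · intro j v
      split_ifs <;> norm_num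
    · intro j v f f' hff
      by_cases hv : v ∈ Sj j.1
      · rw [if_pos hv]
        have key : ∀ g g' : V → Lh l m r K K1 S × Unit, (∀ w, w ≠ v → g w = g' w) →
            ((Sj j.1 ∩ cl g j.2).card : ℝ) ≤ (Sj j.1 ∩ cl g' j.2).card + 1 := by
          intro g g' hgg
          have h1 : Sj j.1 ∩ cl g j.2 ⊆ (Sj j.1 ∩ cl g' j.2) ∪ {v} := by
            intro x hx
            rw [mem_inter, mem_cl] at hx
            rw [mem_union, mem_inter, mem_cl, mem_singleton]
            by_cases hxv : x = v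
            · exact Or.inr hxv
            · left
              rw [← hgg x hxv]
              exact hx
          have h2 := (card_le_card h1).trans (card_union_le _ _)
          rw [card_singleton] at h2
          exact_mod_cast h2
        have h1 := key f f' hff
        have h2 := key f' f (fun w hw => (hff w hw).symm)
        rw [abs_le]
        constructor <;> linarith
      · rw [if_neg hv]
        have h1 : Sj j.1 ∩ cl f j.2 = Sj j.1 ∩ cl f' j.2 := by
          ext x
          rw [mem_inter, mem_inter, mem_cl, mem_cl]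
          constructor
          · rintro ⟨h1, h2⟩
            refine ⟨h1, ?_⟩
            rw [← hff x (fun h => hv (h ▸ h1))]
            exact h2
          · rintro ⟨h1, h2⟩
            refine ⟨h1, ?_⟩
            rw [hff x (fun h => hv (h ▸ h1))]
            exact h2
        show |((Sj j.1 ∩ cl f j.2).card : ℝ) - ((Sj j.1 ∩ cl f' j.2).card : ℝ)| ≤ 0
        rw [h1, sub_self, abs_zero]
    · intro v
      have h1 : (univ.filter (fun j : J × Finset (Lh l m r K K1 S × Unit) =>
          (if v ∈ Sj j.1 then (1 : ℝ) else 0) ≠ 0)) ⊆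
          (univ.filter (fun j : J => v ∈ Sj j)) ×ˢ
            (univ : Finset (Finset (Lh l m r K K1 S × Unit))) := by
        intro j hj
        rw [mem_product, mem_filter]
        refine ⟨⟨mem_univ _, ?_⟩, mem_univ _⟩
        by_contra h
        exact (mem_filter.mp hj).2 (if_neg h)
      refine (card_le_card h1).trans ?_
      rw [card_product, card_univ]
      calc (univ.filter (fun j : J => v ∈ Sj j)).card *
            Fintype.card (Finset (Lh l m r K K1 S × Unit)) ≤ d ^ 3 * d :=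
            Nat.mul_le_mul (hSn v) n4
        _ = d ^ 4 := by ring
    · intro j
      have : (0 : ℝ) < Real.log d ^ 2 := by positivity
      positivity
    · intro j
      have h1 : ∀ x : ℝ, (∑ v : V, (if v ∈ Sj j.1 then (1 : ℝ) else 0) ^ 2) = (Sj j.1).card := by
        intro _
        have h2 : ∀ v : V, (if v ∈ Sj j.1 then (1 : ℝ) else 0) ^ 2 =
            if v ∈ Sj j.1 then (1 : ℝ) else 0 := by
          intro v
          split_ifs <;> norm_num
        rw [sum_congr rfl (fun v _ => h2 v), ← sum_filter, sum_const, nsmul_eq_mul, mul_one,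
          filter_mem_eq_inter, univ_inter]
      have h2 : univ.filter (fun v => (if v ∈ Sj j.1 then (1 : ℝ) else 0) ≠ 0) = Sj j.1 := by
        ext v
        rw [mem_filter]
        constructor
        · intro h
          by_contra h'
          exact h.2 (if_neg h')
        · intro h
          refine ⟨mem_univ _, ?_⟩
          rw [if_pos h]
          exact one_ne_zero
      show s * (Real.log d ^ 2 + ((univ.filter (fun v =>
        (if v ∈ Sj j.1 then (1 : ℝ) else 0) ≠ 0)).card : ℝ) / d) *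
        (∑ v : V, (if v ∈ Sj j.1 then (1 : ℝ) else 0) ^ 2) ≤
        (δ * (Sj j.1).card + Real.log d ^ 2) ^ 2
      rw [h1 0, h2]
      obtain ⟨c, hc⟩ : ∃ c : ℝ, c = (Sj j.1).card := ⟨_, rfl⟩
      obtain ⟨L, hL⟩ : ∃ L : ℝ, L = Real.log d ^ 2 := ⟨_, rfl⟩
      rw [← hc, ← hL]
      have hc0 : 0 ≤ c := by rw [hc]; exact Nat.cast_nonneg _
      have hL0 : 0 ≤ L := by rw [hL]; positivity
      have h3 : c / d ≤ c := div_le_self hc0 (by linarith)
      have h4 : s * (L + c / d) * c ≤ s * (L + c) * c :=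
        mul_le_mul_of_nonneg_right (mul_le_mul_of_nonneg_left (by linarith) hs0.le) hc0
      have h5 : s * L * c ≤ 2 * δ * L * c :=
        mul_le_mul_of_nonneg_right (mul_le_mul_of_nonneg_right hs1 hL0) hc0
      have h6 : s * (c * c) ≤ δ ^ 2 * (c * c) := mul_le_mul_of_nonneg_right hs2 (by positivity)
      nlinarith only [h4, h5, h6, sq_nonneg L]
  · intro lab hlab hLD K0 ow hK0 how hPl hPu
    obtain ⟨GO, hGO⟩ : ∃ GO : SimpleGraph V, ∀ v w, GO.Adj v w ↔
        G.Adj v w ∧ ¬ InS Ys v ∧ ¬ InS Ys w :=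
      ⟨{ Adj := fun v w => G.Adj v w ∧ ¬ InS Ys v ∧ ¬ InS Ys w
         symm := ⟨fun _ _ h => ⟨h.1.symm, h.2.2, h.2.1⟩⟩
         loopless := ⟨fun v h => G.loopless.irrefl v h.1⟩ }, fun _ _ => Iff.rfl⟩
    have hLD' := hLD GO hGO
    have hout : ∀ v, v ∈ outer Ys ↔ ¬ InS Ys v := by
      intro v
      unfold outer
      rw [mem_filter]
      exact ⟨fun h => h.2, fun h => ⟨mem_univ _, h⟩⟩
    obtain ⟨c, hcU, hcP, hcp, hc2, hcd⟩ := H (T := Lh l m r K K1 S × Unit)
      (Q := ZMod (2 * m + 1) × Fin (r + 1)) (C := Fin k) lab (fun t => (ce t.1, su t.1))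
      (fun q => univ.filter (fun b => ow b = some q)) c0 (Fxg a G d Ys UH Hs Gd c0) GO
      (C2g G d Ys Hs Gd) (by
        rw [Fintype.card_prod, ZMod.card, Fintype.card_fin])
      (fun q => den_fq q _ (fun t => Iff.trans (mf _)
        ⟨fun h => h.2, fun h => ⟨mem_univ _, h⟩⟩))
      (fun v w => by rw [hGO, hout, hout]) hLD'.deg hLD'.sps
      (by
        intro j P
        have h1 := hlab (j, P)
        rw [avgL_card] at h1
        exact h1)
      (by
        intro q
        have h1 := hPl q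
        have h2 : (1 - κ) * (d : ℝ) ≤ (1 - min κ 1) * d :=
          mul_le_mul_of_nonneg_right (by linarith [min_le_left κ 1]) (by linarith)
        push_cast
        linarith)
      hPu
      (by
        intro q q' hqq
        rw [disjoint_left]
        intro b hb hb'
        exact hqq (Option.some.inj ((mem_filter.mp hb).2.symm.trans (mem_filter.mp hb').2)))
      (by
        intro v
        refine (C2g_deg hεg hGr.dis hGd v).trans ?_
        have h1 := hd1 d n1
        have h2 : Real.log d ^ 9 * (2 * Real.log d ^ 8 * Real.log d ^ 5) =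
          2 * Real.log d ^ 22 := by ring
        linarith)
      (by
        intro v
        refine (Fxg_card ha0 hGr.dis hGr.pre.two hGd v).trans ?_
        have h1 := hd2 d n2
        have h2 : (0 : ℝ) ≤ 2 / a := by positivity
        have h3 := mul_le_mul_of_nonneg_right h1 h2
        have h4 : δ * a / 2 * d * (2 / a) = δ * d := by field_simp
        linarith)
    have hK0n : K0.Nonempty := card_pos.mp (by omega)
    obtain ⟨z, hz⟩ := hK0n
    obtain ⟨cc, hcc⟩ : ∃ cc : V → Fin k, ∀ v, cc v = if v ∈ UH ∨ ¬ InS Ys v then c v else z :=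
      ⟨_, fun _ => rfl⟩
    have hcc1 : ∀ v, (v ∈ UH ∨ ¬ InS Ys v) → cc v = c v := fun v h => by
      rw [hcc, if_pos h]
    refine ⟨cc, ?_, ?_⟩
    · intro v hv hvo
      rw [hcc1 v (Or.inr hvo)]
      exact (mem_filter.mp (hcP v ((hout v).mpr hvo) hv).1).2
    · rw [← ha]
      refine
        { cU := ?_
          cK := ?_
          pr := ?_
          gdc := ?_
          gdx := ?_
          dead := ?_ }
      · intro v hv
        rw [hcc1 v (Or.inl hv)]
        exact hcU v hv
      · intro v hv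
        by_cases hvo : InS Ys v
        · rw [hcc, if_neg (by tauto)]
          exact hz
        · rw [hcc1 v (Or.inr hvo)]
          exact how _ _ (mem_filter.mp (hcP v ((hout v).mpr hvo) hv).1).2
      · intro v w hv hw hvw
        have hv' : v ∈ UH ∨ ¬ InS Ys v := by
          by_cases h : InS Ys v
          · exact Or.inl (hv h)
          · exact Or.inr h
        have hw' : w ∈ UH ∨ ¬ InS Ys w := by
          by_cases h : InS Ys w
          · exact Or.inl (hw h)
          · exact Or.inr h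
        rw [hcc1 v hv', hcc1 w hw']
        by_cases hU : v ∈ UH ∧ w ∈ UH
        · rw [hcU v hU.1, hcU w hU.2]
          exact hGr.pre.cc v w (hGr.pre.ind v hU.1 w hU.2 hvw)
        · refine hcp v w ?_ ?_ hU hvw
          · rw [hout]
            exact hv'
          · rw [hout]
            exact hw'
      · intro Y hY w w' hwo hwo' hwU hwU' hne h1 h2
        rw [hcc1 w (Or.inr hwo), hcc1 w' (Or.inr hwo')]
        exact hc2 w ((hout w).mpr hwo) w' ((hout w').mpr hwo') hwU hwU'
          ⟨hne, Y, hY, ⟨h1, h2⟩, hwo, hwo'⟩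
      · intro Y hY w hwo hwU hne
        rw [hcc1 w (Or.inr hwo)]
        by_contra hcon
        push Not at hcon
        refine (hcP w ((hout w).mpr hwo) hwU).2 ?_
        unfold Fxg
        rw [if_neg hwo, mem_biUnion]
        obtain ⟨x, hx⟩ := hne
        rw [mem_inter, mem_inter] at hx
        refine ⟨x, mem_inter.mpr ⟨hx.1, hx.2.2⟩, ?_⟩
        rw [mem_filter]
        exact ⟨mem_univ _, Y, hY, hx.2.1, hcon⟩
      · intro Y hY hYs F hF
        obtain ⟨hYY, hYd⟩ := mem_filter.mp hY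
        have hYL : Y ∩ (univ \ Hs) = Y \ Hs := by
          ext x
          simp only [mem_inter, mem_sdiff, mem_univ, true_and]
        have htl : tl G d (univ \ Hs) Y = wl G d Hs Y := by
          unfold tl wl
          rw [hYL]
        have hwl : Real.log d ^ 3 * Y.card ≤ wl G d Hs Y := by
          by_contra hcon
          push Not at hcon
          exact hYs (mem_filter.mpr ⟨hY, hcon⟩)
        have hYc : ((Y \ Hs).card : ℝ) ≤ Y.card := by exact_mod_cast card_le_card sdiff_subset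
        have hwl0 : 0 ≤ wl G d Hs Y := le_trans (by positivity) hwl
        have h1 := hcd Y hYY hYd.le (by
          rw [hYL, htl]
          exact (mul_le_mul_of_nonneg_left hYc (by positivity)).trans hwl) F (by
          intro b hb
          have h2 := hF b hb
          have h3 : fb G ((UH ∪ outer Ys) \ Y) cc (Y \ Hs) b =
              fb G ((UH ∪ outer Ys) \ Y) c (Y \ Hs) b := by
            unfold fb
            ext x
            refine Iff.trans (mf _)
              (Iff.trans ?_ (mf _).symm)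
            refine and_congr_right (fun _ => ?_)
            constructor
            · rintro ⟨w, hw, h4, h5⟩
              refine ⟨w, hw, h4, ?_⟩
              rw [mem_sdiff, mem_union, hout] at hw
              rw [← hcc1 w hw.1]
              exact h5
            · rintro ⟨w, hw, h4, h5⟩
              refine ⟨w, hw, h4, ?_⟩
              rw [mem_sdiff, mem_union, hout] at hw
              rw [hcc1 w hw.1]
              exact h5
          rw [h3] at h2
          rw [hYL]
          refine le_trans (mul_le_mul_of_nonneg_right ?_ (Nat.cast_nonneg _)) h2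
          rw [ha]
          nlinarith only [mul_pos hκ1 hζ])
        rw [htl] at h1
        refine h1.trans (mul_le_mul_of_nonneg_right ?_ hwl0)
        rw [ha]
        nlinarith only [mul_pos hκ1 hζ]

end Pool.Agent.Work.MP_db9399_sx.helper94
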