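import Pool.Agent.Work.MP_db9399_sx.Pre
import Pool.Agent.Work.MP_db9399_bg.Base

/-! # MP_db9399 PHASE 2, block OWX, part 1 (helper94): linear tests, conflicts, excluded colours -/

set_option autoImplicit false

namespace Pool.Agent.Work.MP_db9399_sx.helper94

open Finset Classical
open Pool.Agent.Work.MP_db9399_all (nb)
open Pool.Agent.Work.MP_db9399_dn (IsMat Tot)
open Pool.Agent.Work.MP_db9399_bg (den cl HPre mem_nb mem_cl bx den_bx card_univ_zmod
  card_univ_fin)
open Pool.Agent.Work.MP_db9399_lh (Lh ce su sp pt)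
open Pool.Agent.Work.MP_db9399_sl (InS Same Gout Gss Gin Gex Out Vert Spt Bip Nsc)
open Pool.Agent.Work.MP_db9399_sw (shs sms wt wl od ac avl SHH Gxh Grh Lgt mM avgL TQ LabD ColD
  Exs fiR)
open Pool.Agent.Work.MP_db9399_vt (fb outer tl OwnH)
open Pool.Agent.Work.MP_db9399_sx

universe u

theorem mf {α : Type*} {p : α → Prop} (i : DecidablePred p) {s : Finset α} {a : α} :
    a ∈ @Finset.filter α p i s ↔ a ∈ s ∧ p a := Finset.mem_filter

section avg
variable {V : Type u} [Fintype V] {T : Type} [Fintype T] [Nonempty T]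

theorem card_coord (v : V) (P : Finset T) :
    (univ.filter (fun f : V → T => f v ∈ P)).card * Fintype.card T =
      P.card * Fintype.card (V → T) := by
  have e := Equiv.funSplitAt v T
  have h1 : (univ.filter (fun f : V → T => f v ∈ P)).card =
      P.card * Fintype.card ({j // j ≠ v} → T) := by
    rw [← card_univ, ← card_product]
    refine card_bij (fun f _ => Equiv.funSplitAt v T f) ?_ ?_ ?_
    · intro f hf
      rw [mem_product]
      exact ⟨(mem_filter.mp hf).2, mem_univ _⟩
    · intro f _ f' _ h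
      exact (Equiv.funSplitAt v T).injective h
    · intro x hx
      rw [mem_product] at hx
      refine ⟨(Equiv.funSplitAt v T).symm x, ?_, (Equiv.funSplitAt v T).apply_symm_apply x⟩
      rw [mem_filter]
      refine ⟨mem_univ _, ?_⟩
      have h2 : ((Equiv.funSplitAt v T).symm x) v = x.1 := by
        have h3 := congrArg Prod.fst ((Equiv.funSplitAt v T).apply_symm_apply x)
        exact h3
      rw [h2]
      exact hx.1
  have h2 : Fintype.card (V → T) = Fintype.card T * Fintype.card ({j // j ≠ v} → T) := by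
    rw [Fintype.card_congr (Equiv.funSplitAt v T), Fintype.card_prod]
  rw [h1, h2]
  ring

theorem avgL_card (S : Finset V) (P : Finset T) :
    avgL (fun f : V → T => ((S ∩ cl f P).card : ℝ)) = den P * S.card := by
  unfold avgL
  have hN : (0 : ℝ) < Fintype.card (V → T) := by exact_mod_cast Fintype.card_pos
  have hT : (0 : ℝ) < Fintype.card T := by exact_mod_cast Fintype.card_pos
  have h1 : ∀ f : V → T, ((S ∩ cl f P).card : ℝ) = ∑ v ∈ S, if f v ∈ P then (1 : ℝ) else 0 := by
    intro f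
    rw [← sum_filter, sum_const, nsmul_eq_mul, mul_one]
    congr 2
    ext x
    rw [mem_inter, mem_cl, mem_filter]
  have h2 : ∑ f : V → T, ((S ∩ cl f P).card : ℝ) =
      ∑ v ∈ S, ((univ.filter (fun f : V → T => f v ∈ P)).card : ℝ) := by
    rw [sum_congr rfl (fun f _ => h1 f), sum_comm]
    refine sum_congr rfl (fun v _ => ?_)
    rw [← sum_filter, sum_const, nsmul_eq_mul, mul_one]
  have h3 : ∀ v, ((univ.filter (fun f : V → T => f v ∈ P)).card : ℝ) =
      den P * Fintype.card (V → T) := by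
    intro v
    have h4 : ((univ.filter (fun f : V → T => f v ∈ P)).card : ℝ) * Fintype.card T =
      P.card * Fintype.card (V → T) := by exact_mod_cast card_coord v P
    unfold den
    field_simp
    linarith
  rw [h2, sum_congr rfl (fun v _ => h3 v), sum_const, nsmul_eq_mul]
  field_simp

end avg

section cnt
variable {V : Type u} [Fintype V] {k : ℕ}

theorem biU {α β : Type*} [DecidableEq β] {s : Finset α} {f : α → Finset β} {a b : ℝ}
    (hs : (s.card : ℝ) ≤ a) (hb : 0 ≤ b) (hf : ∀ x ∈ s, ((f x).card : ℝ) ≤ b) :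
    ((s.biUnion f).card : ℝ) ≤ a * b := by
  have h1 : ((s.biUnion f).card : ℝ) ≤ ∑ x ∈ s, ((f x).card : ℝ) := by
    exact_mod_cast card_biUnion_le
  have h2 : ∑ x ∈ s, ((f x).card : ℝ) ≤ s.card * b := by
    rw [← nsmul_eq_mul]
    exact sum_le_card_nsmul _ _ _ hf
  exact h1.trans (h2.trans (mul_le_mul_of_nonneg_right hs hb))

/-- few colours block many vertices of `Y` -/
theorem bad_card {G : SimpleGraph V} {UH : Finset V} (c0 : V → Fin k) {Y : Finset V} {a : ℝ}
    (ha : 0 < a) (hY : 0 < Y.card) (htwo : ∀ v, (nb G v ∩ UH).card ≤ 2) :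
    ((univ.filter (fun b => a * Y.card < ((ubl G UH c0 Y b).card : ℝ))).card : ℝ) ≤ 2 / a := by
  have hYR : (0 : ℝ) < Y.card := by exact_mod_cast hY
  obtain ⟨B, hB⟩ : ∃ B, B = univ.filter (fun b => a * Y.card < ((ubl G UH c0 Y b).card : ℝ)) :=
    ⟨_, rfl⟩
  rw [← hB]
  have h1 : ∑ b ∈ B, (ubl G UH c0 Y b).card = ∑ v ∈ Y, (B.filter (fun b => v ∈ ubl G UH c0 Y b)).card := by
    have h2 : ∀ b, (ubl G UH c0 Y b).card = ∑ v ∈ Y, if v ∈ ubl G UH c0 Y b then 1 else 0 := by
      intro b
      rw [← sum_filter, sum_const, smul_eq_mul, mul_one]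
      congr 1
      ext x
      rw [mem_filter]
      constructor
      · intro h
        exact ⟨(mem_filter.mp h).1, h⟩
      · exact fun h => h.2
    rw [sum_congr rfl (fun b _ => h2 b), sum_comm]
    refine sum_congr rfl (fun v _ => ?_)
    rw [← sum_filter, sum_const, smul_eq_mul, mul_one]
  have h3 : ∀ v ∈ Y, (B.filter (fun b => v ∈ ubl G UH c0 Y b)).card ≤ 2 := by
    intro v _
    refine le_trans (card_le_card (t := (nb G v ∩ UH).image c0) ?_) (card_image_le.trans (htwo v))
    intro b hb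
    obtain ⟨-, hb⟩ := mem_filter.mp hb
    obtain ⟨-, w, hw, -, h5, h6⟩ := mem_filter.mp hb
    rw [mem_image]
    exact ⟨w, mem_inter.mpr ⟨mem_nb.mpr h5, hw⟩, h6⟩
  have h4 : ∑ b ∈ B, (ubl G UH c0 Y b).card ≤ Y.card * 2 := by
    rw [h1, ← smul_eq_mul]
    exact sum_le_card_nsmul _ _ _ h3
  have h5 : (B.card : ℝ) * (a * Y.card) ≤ ∑ b ∈ B, ((ubl G UH c0 Y b).card : ℝ) := by
    rw [← nsmul_eq_mul]
    refine card_nsmul_le_sum _ _ _ (fun b hb => ?_)
    rw [hB] at hb
    exact (mem_filter.mp hb).2.le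
  have h6 : (∑ b ∈ B, ((ubl G UH c0 Y b).card : ℝ)) ≤ Y.card * 2 := by exact_mod_cast h4
  rw [le_div_iff₀ ha]
  have h7 : (B.card * a) * (Y.card : ℝ) ≤ 2 * Y.card := by linarith
  exact le_of_mul_le_mul_right h7 hYR

end cnt

end Pool.Agent.Work.MP_db9399_sx.helper94
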