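import Pool.Agent.Work.MP_db9399_sx_helper94.OWX
import Pool.Agent.Work.MP_db9399_vt_helper94.OWN
import Pool.Agent.Work.MP_db9399_vt_helper14.VOUT
import Pool.Agent.Work.MP_db9399_vt_helper54.CHK
import Pool.Agent.Work.MP_db9399_vt_helper54.COUNT
import Pool.Agent.Work.MP_db9399_vt_helper54.SPVE
import Pool.Agent.Work.MP_db9399_vt_helper51.STEPK
import Pool.Agent.Work.MP_db9399_vt_helper51.RNDK
import Pool.Agent.Work.MP_db9399_all_helper6.LLLI
import Pool.Agent.Work.MP_db9399_all_helper7.RNH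
import Pool.Agent.Work.MP_db9399_all_helper7.RNK

/-! # MP_db9399 PHASE 2: OWN and OWX without hypotheses (helper94) -/

set_option autoImplicit false

namespace Pool.Agent.Work.MP_db9399_sx.helper94

universe u

theorem stmt_OWNU : Pool.Agent.Work.MP_db9399_vt.Stmt_OWN.{u} :=
  Pool.Agent.Work.MP_db9399_vt.helper94.stmt_OWN
    (Pool.Agent.Work.MP_db9399_vt.helper14.stmt_VOUT
      (Pool.Agent.Work.MP_db9399_vt_helper54.stmt_SPVE
        (Pool.Agent.Work.MP_db9399_vt.stmt_STEPK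
          (Pool.Agent.Work.MP_db9399_vt.stmt_RNDK Pool.Agent.Work.MP_db9399_all.stmt_LLLI
            Pool.Agent.Work.MP_db9399_all.stmt_RNH Pool.Agent.Work.MP_db9399_all.stmt_RNK))))
    Pool.Agent.Work.MP_db9399_vt_helper54.stmt_CHK
    Pool.Agent.Work.MP_db9399_vt_helper54.stmt_COUNT

/-- OWX without hypotheses -/
theorem stmt_OWXU : Pool.Agent.Work.MP_db9399_sx.Stmt_OWX.{u} := stmt_OWX stmt_OWNU

end Pool.Agent.Work.MP_db9399_sx.helper94
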